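import Mathlib

/-!
Modified EGZ constants of `(ZMod n)^d`: the proposed upper bound for zero-sum sequences fails for
every odd `n ≥ 3` and every `d ≥ 3` (with `t = 1`).
-/

set_option autoImplicit false

namespace Pool.Agent.Results.MP_b34cfe_co.OddCounterexamplesH22

/-- The least integer `l ≥ 2 ^ d` that does not divide `n`. -/
noncomputable def ell (n d : ℕ) : ℕ := sInf {l : ℕ | 2 ^ d ≤ l ∧ ¬ l ∣ n}

/-- The modified EGZ constant `s'_m((ZMod n)^d)`: the least `L` such that every zero-sum sequence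
over `(ZMod n)^d` of length at least `L` has a zero-sum subsequence of length `m`. -/
noncomputable def sPrime (n d m : ℕ) : ℕ :=
  sInf {L : ℕ | ∀ S : Multiset (Fin d → ZMod n), L ≤ S.card → S.sum = 0 →
    ∃ T ≤ S, T.card = m ∧ T.sum = 0}

/-- There is a sequence of length `L` without zero-sum subsequence of length `n`. -/
def Bad (n d L : ℕ) : Prop :=
  ∃ S : Multiset (Fin d → ZMod n), S.card = L ∧ ∀ T ≤ S, T.card = n → T.sum ≠ 0

lemma split {α : Type*} [DecidableEq α] {T A B : Multiset α} (h : T ≤ A + B) :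
    ∃ T₀ T₁, T₀ ≤ A ∧ T₁ ≤ B ∧ T = T₀ + T₁ := by
  refine ⟨T ∩ A, T - A, Multiset.inter_le_right, ?_, ?_⟩
  · rw [tsub_le_iff_left]; exact h
  · ext a
    simp only [Multiset.count_add, Multiset.count_inter, Multiset.count_sub]
    omega

lemma le_map {α β : Type*} (f : α → β) {R : Multiset β} {S : Multiset α} (h : R ≤ S.map f) :
    ∃ R' ≤ S, R = R'.map f := by
  induction S using Quotient.inductionOn with
  | h s =>
    induction R using Quotient.inductionOn with
    | h r =>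
      obtain ⟨l, hl, hls⟩ := h
      obtain ⟨l', hl', rfl⟩ := List.sublist_map_iff.1 hls
      refine ⟨(l' : Multiset α), ?_, ?_⟩
      · exact Multiset.coe_le.2 hl'.subperm
      · exact (Multiset.coe_eq_coe.2 hl.symm)

lemma exists_sub {α : Type*} (S : Multiset α) {L : ℕ} (h : L ≤ S.card) :
    ∃ R ≤ S, R.card = L := by
  induction S using Quotient.inductionOn with
  | h s =>
    refine ⟨((s.take L : List α) : Multiset α), ?_, ?_⟩
    · exact Multiset.coe_le.2 (List.take_sublist L s).subperm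
    · simp only [Multiset.coe_card, List.length_take]
      have : L ≤ s.length := h
      omega

lemma bad_mono {n d L L' : ℕ} (h : Bad n d L) (hL : L' ≤ L) : Bad n d L' := by
  obtain ⟨S, hS, hT⟩ := h
  obtain ⟨R, hR, hR2⟩ := exists_sub S (L := L') (by omega)
  exact ⟨R, hR2, fun T hTR => hT T (hTR.trans hR)⟩

/-- Doubling: put one copy at height `0` and one at height `1`. -/
lemma bad_double {n d L : ℕ} (hn : 1 ≤ n) (h : Bad n d L) : Bad n (d + 1) (2 * L) := by
  classical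
  obtain ⟨S, hS, hT⟩ := h
  refine ⟨S.map (fun x => Fin.cons 0 x) + S.map (fun x => Fin.cons 1 x), ?_, ?_⟩
  · simp only [Multiset.card_add, Multiset.card_map, hS]; ring
  intro T hTS hTc hsum
  obtain ⟨T₀, T₁, h0, h1, rfl⟩ := split hTS
  obtain ⟨R₀, hR0, rfl⟩ := le_map _ h0
  obtain ⟨R₁, hR1, rfl⟩ := le_map _ h1
  simp only [Multiset.card_add, Multiset.card_map] at hTc
  have c0 : ∀ (c : ZMod n) (R : Multiset (Fin d → ZMod n)),
      (R.map (fun x => (Fin.cons c x : Fin (d+1) → ZMod n))).sum =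
        Fin.cons (R.card • c) R.sum := by
    intro c R
    induction R using Multiset.induction_on with
    | empty =>
      simp only [Multiset.map_zero, Multiset.sum_zero, Multiset.card_zero, zero_smul]
      funext i; refine Fin.cases ?_ (fun j => ?_) i <;> simp
    | cons a R ih =>
      simp only [Multiset.map_cons, Multiset.sum_cons, ih, Multiset.card_cons]
      funext i; refine Fin.cases ?_ (fun j => ?_) i
      · simp [add_smul, add_comm]
      · simp
  rw [Multiset.sum_add, c0, c0] at hsum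
  have hz := congrFun hsum 0
  simp only [Pi.add_apply, Fin.cons_zero, smul_zero, zero_add, Pi.zero_apply, nsmul_eq_mul,
    mul_one] at hz
  rw [ZMod.natCast_eq_zero_iff] at hz
  have ht : R₀.sum + R₁.sum = 0 := by
    funext j
    have := congrFun hsum j.succ
    simpa using this
  obtain ⟨k, hk⟩ := hz
  have hk2 : k = 0 ∨ k = 1 := by
    have : n * k ≤ n * 1 := by rw [← hk]; omega
    have := Nat.le_of_mul_le_mul_left this (by omega)
    omega
  rcases hk2 with rfl | rfl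
  · have hR1c : R₁.card = 0 := by simpa using hk
    have : R₁ = 0 := Multiset.card_eq_zero.1 hR1c
    subst this
    exact hT R₀ hR0 (by omega) (by simpa using ht)
  · have hR0c : R₀.card = 0 := by omega
    have : R₀ = 0 := Multiset.card_eq_zero.1 hR0c
    subst this
    exact hT R₁ hR1 (by omega) (by simpa using ht)

/-- The nine points (a cap of `AG(3,3)` with coordinates `0, 1, 2`). -/
def pts (n : ℕ) : List (Fin 3 → ZMod n) :=
  [![0,0,0], ![0,0,1], ![0,1,0], ![0,1,1], ![1,0,0], ![1,0,1], ![1,1,2], ![1,2,2], ![2,1,2]]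

lemma le_sum_replicate {α : Type*} (m : ℕ) (P : List α) (T : Multiset α)
    (h : T ≤ (P.map (fun x => Multiset.replicate m x)).sum) :
    ∃ a : List ℕ, a.length = P.length ∧ (∀ x ∈ a, x ≤ m) ∧
      T = (List.zipWith (fun k x => Multiset.replicate k x) a P).sum := by
  classical
  induction P generalizing T with
  | nil =>
    refine ⟨[], rfl, by simp, ?_⟩
    simpa using h
  | cons p P ih =>
    rw [List.map_cons, List.sum_cons] at h
    obtain ⟨T₀, T₁, h0, h1, rfl⟩ := split h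
    obtain ⟨a, ha, ham, hT⟩ := ih T₁ h1
    obtain ⟨k, hk, hk2⟩ := Multiset.le_replicate_iff.1 h0
    refine ⟨k :: a, by simp [ha], ?_, ?_⟩
    · intro x hx
      rcases List.mem_cons.1 hx with rfl | hx
      · exact hk
      · exact ham x hx
    · rw [List.zipWith_cons_cons, List.sum_cons, ← hT, hk2]

lemma bad_three {n : ℕ} (hodd : Odd n) (hn : 3 ≤ n) : Bad n 3 (9 * (n - 1)) := by
  refine ⟨((pts n).map (fun x => Multiset.replicate (n - 1) x)).sum, ?_, ?_⟩
  · simp [pts]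
    omega
  intro T hT hc hs
  obtain ⟨a, ha, ham, rfl⟩ := le_sum_replicate _ _ _ hT
  have hlen : a.length = 9 := by rw [ha]; simp [pts]
  obtain ⟨a0, a1, a2, a3, a4, a5, a6, a7, a8, rfl⟩ :
      ∃ a0 a1 a2 a3 a4 a5 a6 a7 a8, a = [a0, a1, a2, a3, a4, a5, a6, a7, a8] := by
    match a, hlen with
    | [a0, a1, a2, a3, a4, a5, a6, a7, a8], _ => exact ⟨_, _, _, _, _, _, _, _, _, rfl⟩
  simp only [pts, List.zipWith_cons_cons, List.zipWith_nil_right,
    List.sum_cons, List.sum_nil, Multiset.card_add, Multiset.card_replicate,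
    Multiset.card_zero] at hc
  have hx := congrFun hs 0
  have hy := congrFun hs 1
  have hz := congrFun hs 2
  simp only [pts, List.zipWith_cons_cons, List.zipWith_nil_right,
    List.sum_cons, List.sum_nil, Multiset.sum_add, Multiset.sum_replicate, Multiset.sum_zero,
    Pi.add_apply, Pi.zero_apply, nsmul_eq_mul] at hx hy hz
  simp only [List.mem_cons, List.not_mem_nil, or_false, forall_eq_or_imp, forall_eq] at ham
  have ex : ((a4 + a5 + a6 + a7 + 2 * a8 : ℕ) : ZMod n) = 0 := by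
    push_cast
    simpa [Matrix.cons_val_zero, mul_comm, add_assoc] using hx
  have ey : ((a2 + a3 + a6 + 2 * a7 + a8 : ℕ) : ZMod n) = 0 := by
    push_cast
    simpa [mul_comm, add_assoc] using hy
  have ez : ((a1 + a3 + a5 + 2 * a6 + 2 * a7 + 2 * a8 : ℕ) : ZMod n) = 0 := by
    push_cast
    simpa [mul_comm, add_assoc] using hz
  rw [ZMod.natCast_eq_zero_iff] at ex ey ez
  obtain ⟨kx, hkx⟩ := ex
  obtain ⟨ky, hky⟩ := ey
  obtain ⟨kz, hkz⟩ := ez
  have bd : ∀ k s : ℕ, s = n * k → s ≤ 2 * n → k = 0 ∨ k = 1 ∨ k = 2 := by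
    intro k s h1 h2
    have : n * k ≤ n * 2 := by rw [← h1]; omega
    have := Nat.le_of_mul_le_mul_left this (by omega)
    omega
  obtain ⟨m, hm⟩ := hodd
  obtain ⟨h0, h1, h2, h3, h4, h5, h6, h7, h8⟩ := ham
  rcases bd kx _ hkx (by omega) with rfl | rfl | rfl <;>
  rcases bd ky _ hky (by omega) with rfl | rfl | rfl <;>
  rcases bd kz _ hkz (by omega) with rfl | rfl | rfl <;>
  omega

lemma bad_all {n : ℕ} (hodd : Odd n) (hn : 3 ≤ n) (e : ℕ) :
    Bad n (3 + e) (2 ^ e * (9 * (n - 1))) := by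
  induction e with
  | zero => simpa using bad_three hodd hn
  | succ e ih =>
    have := bad_double (by omega) ih
    rw [pow_succ, show 2 ^ e * 2 * (9 * (n - 1)) = 2 * (2 ^ e * (9 * (n - 1))) by ring]
    exact this

/-- A sequence whose length is coprime to `n` has a translate with sum zero. -/
lemma zero_sum_of_bad {n d L : ℕ} (h : Bad n d L) (hc : L.Coprime n) :
    ∃ S : Multiset (Fin d → ZMod n), S.card = L ∧ S.sum = 0 ∧
      ∀ T ≤ S, T.card = n → T.sum ≠ 0 := by
  obtain ⟨S, hS, hT⟩ := h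
  obtain ⟨v, hv⟩ : ∃ v : Fin d → ZMod n, L • v = - S.sum := by
    refine ⟨fun i => (L : ZMod n)⁻¹ * (- S.sum i), ?_⟩
    funext i
    have h1 : (L : ZMod n) * (L : ZMod n)⁻¹ = 1 := ZMod.coe_mul_inv_eq_one L hc
    simp only [Pi.smul_apply, nsmul_eq_mul, Pi.neg_apply]
    rw [← mul_assoc, h1, one_mul]
  have hsum : ∀ R : Multiset (Fin d → ZMod n),
      (R.map (fun x => x + v)).sum = R.sum + R.card • v := by
    intro R
    rw [Multiset.sum_map_add]
    simp
  refine ⟨S.map (fun x => x + v), by simp [hS], ?_, ?_⟩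
  · rw [hsum, hS, hv]; simp
  · intro T hTS hTc h0
    obtain ⟨R, hR, rfl⟩ := le_map _ hTS
    rw [Multiset.card_map] at hTc
    refine hT R hR hTc ?_
    rw [hsum, hTc] at h0
    have : n • v = 0 := by
      funext i
      simp
    rw [this, add_zero] at h0
    exact h0

lemma set_nonempty (n d m : ℕ) (hn : 0 < n) (hm : n ∣ m) :
    {L : ℕ | ∀ S : Multiset (Fin d → ZMod n), L ≤ S.card → S.sum = 0 →
      ∃ T ≤ S, T.card = m ∧ T.sum = 0}.Nonempty := by
  classical
  have : NeZero n := ⟨hn.ne'⟩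
  refine ⟨Fintype.card (Fin d → ZMod n) * m + 1, ?_⟩
  intro S hS _
  have : ∃ x : Fin d → ZMod n, m ≤ S.count x := by
    by_contra hcon
    push Not at hcon
    have h1 : S.card = ∑ x : Fin d → ZMod n, S.count x := by
      rw [← Multiset.sum_count_eq_card (s := Finset.univ) (m := S) (by simp)]
    have h2 : ∑ x : Fin d → ZMod n, S.count x ≤ ∑ _x : Fin d → ZMod n, m :=
      Finset.sum_le_sum fun x _ => (hcon x).le
    rw [Finset.sum_const, smul_eq_mul, Finset.card_univ] at h2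
    omega
  obtain ⟨x, hx⟩ := this
  refine ⟨Multiset.replicate m x, Multiset.le_count_iff_replicate_le.1 hx, by simp, ?_⟩
  rw [Multiset.sum_replicate]
  obtain ⟨k, rfl⟩ := hm
  funext i
  simp

lemma lt_sPrime {n d m L : ℕ} (hn : 0 < n) (hm : n ∣ m)
    (h : ∃ S : Multiset (Fin d → ZMod n), S.card = L ∧ S.sum = 0 ∧
      ∀ T ≤ S, T.card = m → T.sum ≠ 0) : L < sPrime n d m := by
  by_contra hcon
  push Not at hcon
  have hmem := Nat.sInf_mem (set_nonempty n d m hn hm)
  obtain ⟨S, hS, hS0, hT⟩ := h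
  obtain ⟨T, hTS, hTc, hT0⟩ := hmem S (hcon.trans hS.ge) hS0
  exact hT T hTS hTc hT0

lemma ell_odd {n d : ℕ} (hn : Odd n) (hd : 1 ≤ d) : ell n d = 2 ^ d := by
  have hmem : 2 ^ d ∈ {l : ℕ | 2 ^ d ≤ l ∧ ¬ l ∣ n} := by
    refine ⟨le_rfl, fun h => ?_⟩
    have h2 : 2 ∣ n := (dvd_pow_self 2 (by omega)).trans h
    exact (Nat.not_even_iff_odd.2 hn) (even_iff_two_dvd.2 h2)
  exact le_antisymm (Nat.sInf_le hmem) (Nat.sInf_mem ⟨_, hmem⟩).1

lemma window {n N₀ : ℕ} (hn : 3 ≤ n) : ∃ L, N₀ ≤ L ∧ L + 2 ≤ N₀ + n ∧ L.Coprime n := by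
  by_cases h : n ∣ N₀
  · refine ⟨N₀ + 1, by omega, by omega, ?_⟩
    obtain ⟨k, rfl⟩ := h
    simp
  · have h1 := Nat.div_add_mod N₀ n
    have h2 : N₀ % n < n := Nat.mod_lt _ (by omega)
    have h3 : N₀ % n ≠ 0 := fun h' => h (Nat.dvd_of_mod_eq_zero h')
    refine ⟨n * (N₀ / n + 1) - 1, ?_, ?_, ?_⟩
    · rw [mul_add]; omega
    · rw [mul_add]; omega
    · have hpos : 1 ≤ n * (N₀ / n + 1) := Nat.succ_le_of_lt (Nat.mul_pos (by omega) (Nat.succ_pos _))
      have h4 : Nat.Coprime (n * (N₀ / n + 1) - 1) (n * (N₀ / n + 1)) := by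
        have := Nat.coprime_self_add_right (m := n * (N₀ / n + 1) - 1) (n := 1)
        rw [Nat.sub_add_cancel hpos] at this
        exact this.2 (Nat.coprime_one_right _)
      exact Nat.Coprime.coprime_dvd_right (Dvd.intro _ rfl) h4

/-- **The bound fails for all odd `n ≥ 3`, all `d ≥ 3` and `t = 1`.** -/
theorem result :
    (∀ n d L : ℕ, Odd n → 3 ≤ n → 3 ≤ d → L ≤ 9 * 2 ^ (d - 3) * (n - 1) → L.Coprime n →
      L < sPrime n d n) ∧
    (∀ n d : ℕ, Odd n → 3 ≤ n → 3 ≤ d →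
      ∃ S : Multiset (Fin d → ZMod n), S.sum = 0 ∧
        ((1 + 2 ^ d - 1) * n - ell n d + 1 : ℤ) ≤ S.card ∧
        ∀ T ≤ S, T.card = n * 1 → T.sum ≠ 0) ∧
    ¬ (∀ n t d : ℕ, 0 < n → 0 < t → 0 < d →
      (sPrime n d (n * t) : ℤ) ≤ (t + 2 ^ d - 1) * n - ell n d + 1) := by
  have hmain : ∀ n d L : ℕ, Odd n → 3 ≤ n → 3 ≤ d → L ≤ 9 * 2 ^ (d - 3) * (n - 1) →
      L.Coprime n → ∃ S : Multiset (Fin d → ZMod n), S.card = L ∧ S.sum = 0 ∧
      ∀ T ≤ S, T.card = n → T.sum ≠ 0 := by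
    intro n d L hodd hn hd hL hc
    obtain ⟨e, rfl⟩ := Nat.exists_eq_add_of_le hd
    have h := bad_all hodd hn e
    rw [Nat.add_sub_cancel_left] at hL
    exact zero_sum_of_bad (bad_mono h (by
      rw [show 2 ^ e * (9 * (n - 1)) = 9 * 2 ^ e * (n - 1) by ring]; exact hL)) hc
  have hbig : ∀ n d : ℕ, Odd n → 3 ≤ n → 3 ≤ d →
      ∃ S : Multiset (Fin d → ZMod n), S.sum = 0 ∧
        ((1 + 2 ^ d - 1) * n - ell n d + 1 : ℤ) ≤ S.card ∧
        ∀ T ≤ S, T.card = n * 1 → T.sum ≠ 0 := by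
    intro n d hodd hn hd
    obtain ⟨L, hL1, hL2, hL3⟩ := window (n := n) (N₀ := 8 * 2 ^ (d - 3) * (n - 1) + 1) hn
    have hle : L ≤ 9 * 2 ^ (d - 3) * (n - 1) := by
      have h1 : 1 ≤ 2 ^ (d - 3) := Nat.one_le_two_pow
      have h2 : 9 * 2 ^ (d - 3) * (n - 1) = 8 * 2 ^ (d - 3) * (n - 1) + 2 ^ (d - 3) * (n - 1) := by
        ring
      have h3 : 1 * (n - 1) ≤ 2 ^ (d - 3) * (n - 1) := Nat.mul_le_mul_right _ h1
      omega
    obtain ⟨S, hS1, hS2, hS3⟩ := hmain n d L hodd hn hd hle hL3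
    refine ⟨S, hS2, ?_, by simpa using hS3⟩
    rw [ell_odd hodd (by omega), hS1]
    have h8 : 8 * 2 ^ (d - 3) = 2 ^ d := by
      obtain ⟨e, rfl⟩ := Nat.exists_eq_add_of_le hd
      rw [Nat.add_sub_cancel_left, pow_add]; norm_num
    rw [h8] at hL1
    obtain ⟨m, rfl⟩ : ∃ m, n = m + 1 := ⟨n - 1, by omega⟩
    rw [Nat.add_sub_cancel] at hL1
    have : ((2 ^ d * m + 1 : ℕ) : ℤ) ≤ L := by exact_mod_cast hL1
    push_cast at this ⊢
    linarith
  refine ⟨fun n d L hodd hn hd hL hc => lt_sPrime (by omega) dvd_rfl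
    (hmain n d L hodd hn hd hL hc), hbig, ?_⟩
  intro hall
  obtain ⟨S, hS1, hS2, hS3⟩ := hbig 3 3 (by decide) le_rfl le_rfl
  have h1 := hall 3 1 3 (by norm_num) (by norm_num) (by norm_num)
  have h2 : S.card < sPrime 3 3 (3 * 1) := lt_sPrime (by norm_num) (by norm_num)
    ⟨S, rfl, hS1, hS3⟩
  have h3 : (S.card : ℤ) < sPrime 3 3 (3 * 1) := by exact_mod_cast h2
  push_cast at h1 hS2
  linarith

end Pool.Agent.Results.MP_b34cfe_co.OddCounterexamplesH22
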